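import Pool.Agent.Helper40_Dio.FStmt

/-!
# DIO part F, module PG1: even type with `f = g`, small cases (helper69)
-/

set_option autoImplicit false

namespace Pool.Agent.DIO.H69

open Pool.Agent.DIO

theorem mulb {x y X Y : ℤ} (hx : |x| ≤ X) (hy : |y| ≤ Y) : |x * y| ≤ X * Y := by
  rw [abs_mul]
  exact mul_le_mul hx hy (abs_nonneg _) (le_trans (abs_nonneg _) hx)

theorem addb {x y X Y : ℤ} (hx : |x| ≤ X) (hy : |y| ≤ Y) : |x + y| ≤ X + Y :=
  (abs_add_le x y).trans (add_le_add hx hy)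

theorem subb {x y X Y : ℤ} (hx : |x| ≤ X) (hy : |y| ≤ Y) : |x - y| ≤ X + Y :=
  (abs_sub x y).trans (add_le_add hx hy)

/-- IRR for the present sizes -/
theorem irr_core (hI : IrrStatement) {A G B N u : ℕ} {U V R y T : ℤ} (hy : 100 ≤ y) (hT : 1 ≤ T)
    (hA : 0 < A) (hG : 0 < G) (hB : 0 < B) (hu : u * u = A * G + 1)
    (hN : N * N = (A * B + 1) * (G * B + 1)) (hAG : ((A * G : ℕ) : ℤ) ≤ T)
    (hU : |U| ≤ y ^ 4 * T) (hV : |V| ≤ y ^ 4 * T) (hR : |R| ≤ y ^ 4 * T)
    (hrel : U * B + V * N + R = 0) : (U = 0 ∧ V = 0) ∨ (B : ℤ) ≤ 20 * y ^ 16 * T ^ 4 := by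
  have hy1 : (1 : ℤ) ≤ y ^ 4 := one_le_pow₀ (by linarith)
  set P : ℤ := y ^ 4 * T with hP
  have hTP : T ≤ P := by nlinarith
  have hP1 : 1 ≤ P := hT.trans hTP
  have hA' : (A : ℤ) ≤ P := by
    have h1 : (A : ℤ) ≤ ((A * G : ℕ) : ℤ) := by exact_mod_cast Nat.le_mul_of_pos_right A hG
    linarith
  have hG' : (G : ℤ) ≤ P := by
    have h1 : (G : ℤ) ≤ ((A * G : ℕ) : ℤ) := by exact_mod_cast Nat.le_mul_of_pos_left G hA
    linarith
  rcases hI A G B N u U V P hA hG hB hu hN hP1 hA' hG' hU hV with h | h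
  · exact Or.inl h
  · right
    have h1 : |U * B + V * N| ≤ P := by
      have h2 : U * B + V * N = -R := by linarith
      rw [h2, abs_neg]
      exact hR
    have h3 : (B : ℤ) ≤ 10 * P ^ 3 * (P + 1) := by
      have : 0 ≤ 10 * P ^ 3 := by positivity
      nlinarith
    have h4 : 10 * P ^ 3 * (P + 1) ≤ 20 * P ^ 4 := by
      have : 0 ≤ P ^ 3 := by positivity
      nlinarith
    calc (B : ℤ) ≤ 20 * P ^ 4 := h3.trans h4
      _ = 20 * y ^ 16 * T ^ 4 := by rw [hP]; ring

theorem not_sq {u w : ℤ} (hw : 0 < w) (hu : 0 ≤ u) (h : u * u = w * w + 1) : False := by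
  rcases le_or_gt u w with h1 | h1
  · have : u * u ≤ w * w := mul_le_mul h1 h1 hu hw.le
    linarith
  · have h2 : w + 1 ≤ u := h1
    have : (w + 1) * (w + 1) ≤ u * u := mul_le_mul h2 h2 (by linarith) hu
    nlinarith

theorem le_T {a g T : ℤ} (ha : 0 < a) (hg : 0 < g) (h : a * g ≤ T) : a ≤ T ∧ g ≤ T := by
  constructor
  · have : a * 1 ≤ a * g := mul_le_mul_of_nonneg_left hg ha.le
    linarith
  · have : 1 * g ≤ a * g := mul_le_mul_of_nonneg_right ha hg.le
    linarith

theorem root_bd {u X T : ℤ} (hu : 0 ≤ u) (h : u * u = X + 1) (hX : X ≤ T) (hX0 : 0 ≤ X)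
    (hT : 1 ≤ T) : 0 < u ∧ u ≤ 2 * T := by
  have h0 : 0 < u := by
    rcases lt_or_eq_of_le hu with h3 | h3
    · exact h3
    · rw [← h3] at h
      linarith
  refine ⟨h0, ?_⟩
  have : u * 1 ≤ u * u := mul_le_mul_of_nonneg_left h0 hu
  linarith

/-- the final bound -/
theorem fin_bound {y : ℤ} (hy : 100 ≤ y) {c : ℤ} (hc : c ≤ 320 * y ^ 16 * (y ^ 420) ^ 5) :
    c ≤ y ^ 5000 := by
  have h2 : 320 * y ^ 16 * (y ^ 420) ^ 5 ≤ y ^ 18 * (y ^ 420) ^ 5 := by
    have h3 : (320 : ℤ) ≤ y ^ 2 := by nlinarith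
    have h4 : (320 : ℤ) * y ^ 16 ≤ y ^ 2 * y ^ 16 := by gcongr
    have h5 : y ^ 2 * y ^ 16 = y ^ 18 := by rw [← pow_add]
    rw [h5] at h4
    gcongr
  have h5 : y ^ 18 * (y ^ 420) ^ 5 = y ^ 2118 := by
    rw [← pow_mul, ← pow_add]
  have h6 : y ^ 2118 ≤ y ^ 5000 := pow_le_pow_right₀ (by linarith) (by norm_num)
  calc c ≤ _ := hc
    _ ≤ _ := h2
    _ = _ := h5
    _ ≤ _ := h6

theorem bd5 {y T c X B : ℤ} (hy : 100 ≤ y) (hT : 1 ≤ T) (hX : X ≤ T) (hX0 : 0 ≤ X)
    (hB0 : 0 ≤ B) (hB : B ≤ 20 * y ^ 16 * T ^ 4) (hc : c ≤ 16 * (X * B)) :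
    c ≤ 320 * y ^ 16 * T ^ 5 := by
  have h1 : X * B ≤ T * (20 * y ^ 16 * T ^ 4) := mul_le_mul hX hB hB0 (by linarith)
  calc c ≤ 16 * (X * B) := hc
    _ ≤ 16 * (T * (20 * y ^ 16 * T ^ 4)) := by linarith
    _ = _ := by ring

theorem pg1_core (hI : IrrStatement) (a b c r s t g u v w : ℕ) (ε m n y T : ℤ)
    (hN : NEd a b c r s t g u v w) (hε : ε = 1 ∨ ε = -1) (hn1 : 1 ≤ n) (hmn : n < m)
    (hy100 : 100 ≤ y) (hmy : m ≤ y) (hT1 : 1 ≤ T) (k : ℤ)
    (hk' : 2 * ε * (b * n ^ 2 - a * m ^ 2) + (b - a) * (m + n) - g * (m - n) = c * k)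
    (hcase : ((a * g : ℕ) : ℤ) ≤ T ∨ ((a * b : ℕ) : ℤ) ≤ T) :
    (c : ℤ) ≤ 320 * y ^ 16 * T ^ 5 := by
  have ha0 : (0 : ℤ) < a := by exact_mod_cast hN.ha
  have hb0 : (0 : ℤ) < b := by exact_mod_cast hN.hb
  have hg0 : (0 : ℤ) < g := by exact_mod_cast hN.hg
  have hcZ : (c : ℤ) = a + b + g + 2 * a * b * g + 2 * (r * (u * v)) := by exact_mod_cast hN.hc
  have hp : (0 : ℤ) ≤ 2 * a * b * g + 2 * (r * (u * v)) := by positivity
  have hc0 : (0 : ℤ) < c := by linarith
  have hac : (a : ℤ) ≤ c := by linarith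
  have hbc : (b : ℤ) ≤ c := by linarith
  have hgc : (g : ℤ) ≤ c := by linarith
  have hle : (c : ℤ) ≤ 16 * (a * b * g) := by exact_mod_cast hN.c_le
  have hm0 : 0 ≤ m := by linarith
  have hny : n ≤ y := by linarith
  have hm2 : m ^ 2 ≤ y ^ 2 := pow_le_pow_left₀ hm0 hmy 2
  have hn2 : n ^ 2 ≤ y ^ 2 := pow_le_pow_left₀ (by linarith) hny 2
  have hyy : 3 * y ≤ y ^ 2 := by nlinarith
  -- the bound for `k`
  have habs : ∀ p q C : ℤ, 0 ≤ p → p ≤ C → 0 ≤ q → q ≤ C → |p - q| ≤ C := by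
    intro p q C h1 h2 h3 h4
    rw [abs_le]
    constructor <;> linarith
  have hεa : |2 * ε| ≤ 2 := by rcases hε with h | h <;> rw [h] <;> norm_num
  have hK : |k| ≤ 3 * y ^ 2 := by
    have h1 : |(b : ℤ) * n ^ 2 - a * m ^ 2| ≤ c * y ^ 2 :=
      habs _ _ _ (by positivity) (mul_le_mul hbc hn2 (by positivity) hc0.le) (by positivity)
        (mul_le_mul hac hm2 (by positivity) hc0.le)
    have h2 : |(b : ℤ) - a| ≤ c := habs _ _ _ hb0.le hbc ha0.le hac
    have h3 : |m + n| ≤ 2 * y := by rw [abs_of_nonneg (by linarith)]; linarith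
    have h4 : |m - n| ≤ y := habs _ _ _ hm0 hmy (by linarith) hny
    have h5 : |(g : ℤ)| ≤ c := by rw [abs_of_pos hg0]; exact hgc
    have h6 := subb (addb (mulb hεa h1) (mulb h2 h3)) (mulb h5 h4)
    rw [hk', abs_mul, abs_of_pos hc0] at h6
    have h7 : 2 * (c * y ^ 2) + c * (2 * y) + c * y ≤ c * (3 * y ^ 2) := by nlinarith
    exact le_of_mul_le_mul_left (h6.trans h7) hc0
  have hy2 : 0 ≤ y ^ 2 := by positivity
  have hy4 : 20 * (y ^ 2 * T) ≤ y ^ 4 * T := by
    have h1 : (20 : ℤ) ≤ y ^ 2 := by nlinarith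
    have h2 : 0 ≤ y ^ 2 * T := by positivity
    nlinarith
  have hyT : y ^ 2 ≤ y ^ 2 * T := le_mul_of_one_le_right hy2 hT1
  have hyT2 : 3 * y * T ≤ y ^ 2 * T := mul_le_mul_of_nonneg_right hyy (by linarith)
  have hyT3 : 0 ≤ y ^ 2 * T := by positivity
  have hmn2 : |m + n| ≤ 2 * y := by rw [abs_of_nonneg (by linarith)]; linarith
  have hmn3 : |m - n| ≤ y := habs _ _ _ hm0 hmy (by linarith) hny
  have hma : |m ^ 2| ≤ y ^ 2 := by rw [abs_of_nonneg (by positivity)]; exact hm2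
  have hna : |n ^ 2| ≤ y ^ 2 := by rw [abs_of_nonneg (by positivity)]; exact hn2
  · rcases hcase with hag' | hab2
    · -- case I
      have hagm : (a : ℤ) * g ≤ T := by push_cast at hag'; exact hag'
      obtain ⟨haT, hgT⟩ := le_T ha0 hg0 hagm
      have huZ : (u : ℤ) * u = a * g + 1 := by exact_mod_cast hN.hu
      have hu0 : (0 : ℤ) ≤ u := by positivity
      obtain ⟨hu1, huT⟩ := root_bd hu0 huZ hagm (by positivity) hT1
      have hNN : (r * v) * (r * v) = (a * b + 1) * (g * b + 1) := by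
        have h1 := hN.hr
        have h2 := hN.hv
        calc (r * v) * (r * v) = (r * r) * (v * v) := by ring
          _ = _ := by rw [h1, h2]; ring
      have hkA : |1 + 2 * ((a : ℤ) * g)| ≤ 3 * T := by
        rw [abs_of_nonneg (by positivity)]; linarith
      have b1 : |2 * ε * n ^ 2 + (m + n) - k * (1 + 2 * ((a : ℤ) * g))| ≤ y ^ 4 * T := by
        have h1 := subb (addb (mulb hεa hna) hmn2) (mulb hK hkA)
        have e1 : 3 * y ^ 2 * (3 * T) = 9 * (y ^ 2 * T) := by ring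
        linarith
      have b2 : |-(2 * u * k)| ≤ y ^ 4 * T := by
        rw [abs_neg]
        have h0 : |2 * (u : ℤ)| ≤ 4 * T := by rw [abs_of_nonneg (by positivity)]; linarith
        have h1 := mulb h0 hK
        have e1 : 4 * T * (3 * y ^ 2) = 12 * (y ^ 2 * T) := by ring
        linarith
      have haa : |(a : ℤ)| ≤ T := by rw [abs_of_pos ha0]; exact haT
      have hga : |(g : ℤ)| ≤ T := by rw [abs_of_pos hg0]; exact hgT
      have b3 : |-(2 * ε * (a * m ^ 2)) - a * (m + n) - g * (m - n) - k * (a + g)|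
          ≤ y ^ 4 * T := by
        have h0 := mulb hεa (mulb haa hma)
        rw [← abs_neg (2 * ε * (a * m ^ 2))] at h0
        have h1 := subb (subb (subb h0 (mulb haa hmn2)) (mulb hga hmn3)) (mulb hK (addb haa hga))
        have e1 : 2 * (T * y ^ 2) + T * (2 * y) + T * y + 3 * y ^ 2 * (T + T)
          = 8 * (y ^ 2 * T) + 3 * y * T := by ring
        rw [e1] at h1
        linarith
      have hrel : (2 * ε * n ^ 2 + (m + n) - k * (1 + 2 * ((a : ℤ) * g))) * (b : ℕ)
          + (-(2 * u * k)) * ((r * v : ℕ) : ℤ)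
          + (-(2 * ε * (a * m ^ 2)) - a * (m + n) - g * (m - n) - k * (a + g)) = 0 := by
        push_cast
        linear_combination hk' + k * hcZ
      rcases irr_core hI hy100 hT1 hN.ha hN.hg hN.hb hN.hu hNN hag' b1 b2 b3 hrel with h | h
      · exfalso
        obtain ⟨h1, h2⟩ := h
        have hk0 : k = 0 := by
          have h3 : 2 * (u : ℤ) * k = 0 := by linarith
          rcases mul_eq_zero.1 h3 with h4 | h4
          · exfalso; linarith
          · exact h4
        rw [h1, h2] at hrel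
        rw [hk0] at h1 hrel
        rcases hε with h3 | h3
        · rw [h3] at h1
          nlinarith
        · rw [h3] at h1 hrel
          have h4 : m + n = 2 * n ^ 2 := by linarith
          have h5 : (m - n) * (g - 4 * a * n ^ 2) = 0 := by
            have h6 : (g : ℤ) * (m - n) = 2 * (a * m ^ 2) - a * (m + n) := by linarith
            have h7 : (m - n) * (m + n) = m ^ 2 - n ^ 2 := by ring
            rw [h4] at h7
            linear_combination h6 + (-(a : ℤ)) * h4 + (-(2 * (a : ℤ))) * h7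
          rcases mul_eq_zero.1 h5 with h6 | h6
          · linarith
          · have h7 : (u : ℤ) * u = (2 * a * n) * (2 * a * n) + 1 := by
              rw [huZ]
              have : (g : ℤ) = 4 * a * n ^ 2 := by linarith
              rw [this]; ring
            exact not_sq (by positivity) hu0 h7
      · refine bd5 hy100 hT1 (X := a * g) (B := b) hagm (by positivity) hb0.le h ?_
        linarith [hle, (by ring : (a : ℤ) * b * g = a * g * b)]
    · -- case II
      have habm : (a : ℤ) * b ≤ T := by push_cast at hab2; exact hab2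
      obtain ⟨haT, hbT⟩ := le_T ha0 hb0 habm
      have hrZ : (r : ℤ) * r = a * b + 1 := by exact_mod_cast hN.hr
      have hr0 : (0 : ℤ) ≤ r := by positivity
      obtain ⟨hr1, hrT⟩ := root_bd hr0 hrZ habm (by positivity) hT1
      have hNN : (u * v) * (u * v) = (a * g + 1) * (b * g + 1) := by
        have h1 := hN.hu
        have h2 := hN.hv
        calc (u * v) * (u * v) = (u * u) * (v * v) := by ring
          _ = _ := by rw [h1, h2]
      have hkA : |1 + 2 * ((a : ℤ) * b)| ≤ 3 * T := by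
        rw [abs_of_nonneg (by positivity)]; linarith
      have b1 : |-(m - n) - k * (1 + 2 * ((a : ℤ) * b))| ≤ y ^ 4 * T := by
        have h0 := hmn3
        rw [← abs_neg (m - n)] at h0
        have h1 := subb h0 (mulb hK hkA)
        have e1 : 3 * y ^ 2 * (3 * T) = 9 * (y ^ 2 * T) := by ring
        linarith
      have b2 : |-(2 * r * k)| ≤ y ^ 4 * T := by
        rw [abs_neg]
        have h0 : |2 * (r : ℤ)| ≤ 4 * T := by rw [abs_of_nonneg (by positivity)]; linarith
        have h1 := mulb h0 hK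
        have e1 : 4 * T * (3 * y ^ 2) = 12 * (y ^ 2 * T) := by ring
        linarith
      have haa : |(a : ℤ)| ≤ T := by rw [abs_of_pos ha0]; exact haT
      have hba : |(b : ℤ)| ≤ T := by rw [abs_of_pos hb0]; exact hbT
      have b3 : |2 * ε * (b * n ^ 2 - a * m ^ 2) + (b - a) * (m + n) - k * (a + b)|
          ≤ y ^ 4 * T := by
        have h0 := mulb hεa (subb (mulb hba hna) (mulb haa hma))
        have h1 := subb (addb h0 (mulb (subb hba haa) hmn2)) (mulb hK (addb haa hba))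
        have e1 : 2 * (T * y ^ 2 + T * y ^ 2) + (T + T) * (2 * y) + 3 * y ^ 2 * (T + T)
          = 10 * (y ^ 2 * T) + 4 * y * T := by ring
        rw [e1] at h1
        have h2 : 4 * y * T = 3 * y * T + y * T := by ring
        have h3 : y * T ≤ 3 * y * T := by
          have : 0 ≤ y * T := by positivity
          linarith
        linarith
      have hrel : (-(m - n) - k * (1 + 2 * ((a : ℤ) * b))) * (g : ℕ)
          + (-(2 * r * k)) * ((u * v : ℕ) : ℤ)
          + (2 * ε * (b * n ^ 2 - a * m ^ 2) + (b - a) * (m + n) - k * (a + b)) = 0 := by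
        push_cast
        linear_combination hk' + k * hcZ
      rcases irr_core hI hy100 hT1 hN.ha hN.hb hN.hg hN.hr hNN hab2 b1 b2 b3 hrel with h | h
      · exfalso
        obtain ⟨h1, h2⟩ := h
        have hk0 : k = 0 := by
          have h3 : 2 * (r : ℤ) * k = 0 := by linarith
          rcases mul_eq_zero.1 h3 with h4 | h4
          · exfalso; linarith
          · exact h4
        rw [hk0] at h1
        linarith
      · refine bd5 hy100 hT1 (X := a * b) (B := g) habm (by positivity) hg0.le h ?_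
        linarith [hle]

theorem pg1 (hI : IrrStatement) : Pg1Statement := by
  intro a b c r s t g u v w ε μ ν Y hab hN hε hν hμν hY hμY hdvd hcase
  obtain ⟨k, hk⟩ := hdvd
  have hY' : (100 : ℤ) ≤ (Y : ℤ) := by exact_mod_cast hY
  have h1 := pg1_core hI a b c r s t g u v w ε μ ν Y (((Y ^ 420 : ℕ) : ℤ)) hN hε
    (by exact_mod_cast hν) (by exact_mod_cast hμν) hY' (by exact_mod_cast hμY)
    (by exact_mod_cast Nat.one_le_pow 420 Y (by omega)) k hk
    (by
      rcases hcase with h | h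
      · exact Or.inl (Int.ofNat_le.2 h)
      · exact Or.inr (Int.ofNat_le.2 h))
  have h2 : ((Y ^ 420 : ℕ) : ℤ) = (Y : ℤ) ^ 420 := by push_cast; rfl
  rw [h2] at h1
  have h3 := fin_bound hY' h1
  exact_mod_cast h3

end Pool.Agent.DIO.H69
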