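import Pool.Agent.Helper40_Dio.FStmt

/-!
# DIO part F, module MCT: type `t` modulo `c` (helper69)
-/

set_option autoImplicit false

namespace Pool.Agent.DIO.H69

open Pool.Agent.DIO

/-- the solution with even index modulo `c ^ 2` and modulo `c` -/
theorem even_mod (a c s z0 x0 : ℤ) (h : s * s = a * c + 1) (m : ℕ) : ∃ k l : ℤ,
    (sqg a c s z0 x0 (2 * m)).1 = z0 + 2 * c * (a * z0 * m ^ 2 + s * x0 * m) + c ^ 2 * k ∧
    (sqg a c s z0 x0 (2 * m)).2 = x0 + 2 * a * s * z0 * m + c * l := by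
  induction m with
  | zero => exact ⟨0, 0, by simp [sqg], by simp [sqg]⟩
  | succ m ih =>
    obtain ⟨k, l, h1, h2⟩ := ih
    have e : 2 * (m + 1) = 2 * m + 1 + 1 := by ring
    rw [e]
    simp only [sqg]
    set Z := (sqg a c s z0 x0 (2 * m)).1 with hZ
    set X := (sqg a c s z0 x0 (2 * m)).2 with hX
    refine ⟨k + 4 * a * (a * z0 * m ^ 2 + s * x0 * m) + 2 * a * c * k + 4 * a ^ 2 * z0 * m
      + 2 * s * l, l + 2 * a * X + 4 * a * s * (a * z0 * m ^ 2 + s * x0 * m) + 2 * a * s * c * k,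
      ?_, ?_⟩
    · push_cast
      linear_combination (Z + 4 * a * c * z0 * m) * h + (2 * a * c + 1) * h1 + 2 * c * s * h2
    · push_cast
      linear_combination X * h + (2 * a * s) * h1 + h2

/-- the solution with odd index modulo `c ^ 2` -/
theorem odd_mod (a c s z0 x0 : ℤ) (h : s * s = a * c + 1) (m : ℕ) : ∃ k : ℤ,
    (sqg a c s z0 x0 (2 * m + 1)).1
      = s * z0 + c * (2 * a * s * z0 * m * (m + 1) + x0 * (2 * m + 1)) + c ^ 2 * k := by
  obtain ⟨k, l, h1, h2⟩ := even_mod a c s z0 x0 h m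
  simp only [sqg]
  refine ⟨s * k + l + 2 * a * x0 * m, ?_⟩
  rw [h1, h2]
  linear_combination (2 * c * x0 * m) * h

/-- `2 r s t` modulo `c` -/
theorem two_rst {a b c r s t g u v w : ℕ} (h : NEd a b c r s t g u v w) :
    2 * (r : ℤ) * s * t = a + b - g + c * (2 * r * r - 1) := by
  have h1 : (w : ℤ) + s * t = c * r := by exact_mod_cast h.w_eq'
  have h2 : (w : ℤ) = g * r + u * v := by exact_mod_cast h.w_eq
  have h3 : (r : ℤ) * r = a * b + 1 := by exact_mod_cast h.hr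
  have h4 : (c : ℤ) = a + b + g + 2 * a * b * g + 2 * (r * (u * v)) := by exact_mod_cast h.hc
  linear_combination (2 * (r : ℤ)) * h1 - 2 * r * h2 - 2 * g * h3 + h4

theorem mct : MctStatement := by
  intro a b c r s t g u v w x y z ε μ ν hN hT
  obtain ⟨hε, -, h1, h2⟩ := hT
  have hs : (s : ℤ) * s = a * c + 1 := by exact_mod_cast hN.hs
  have ht : (t : ℤ) * t = b * c + 1 := by exact_mod_cast hN.ht
  obtain ⟨k, l, e1, -⟩ := even_mod a c s (ε * t) r hs μ
  obtain ⟨k', e2⟩ := odd_mod b c t ε 1 ht ν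
  rw [h1] at e1
  rw [h2] at e2
  simp only at e1 e2
  have h5 := two_rst hN
  have hc : (c : ℤ) ≠ 0 := by
    have h6 := hN.c_gt
    have : 0 < c := by omega
    exact_mod_cast this.ne'
  -- divide by `c`
  have e3 : 2 * (a * (ε * t) * (μ : ℤ) ^ 2 + s * r * μ) + c * k
      = 2 * b * t * ε * ν * (ν + 1) + 1 * (2 * ν + 1) + c * k' := by
    apply mul_left_cancel₀ hc
    linear_combination e2 - e1
  refine ⟨2 * ε * b * (a * μ ^ 2 - b * ν * (ν + 1)) + (2 * r * r - 1) * μ + t * (k - k'), ?_⟩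
  unfold relT
  linear_combination (-(t : ℤ)) * e3 + (2 * a * ε * (μ : ℤ) ^ 2 - 2 * b * ε * ν * (ν + 1)) * ht
    + (μ : ℤ) * h5

end Pool.Agent.DIO.H69
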